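import Pool.Agent.Lib.MP_af2b3e_co.LE.Rel

/-! The potential argument: discounted weights plus one reserve for each cluster. -/

set_option autoImplicit false
open Finset

namespace Pool.Agent.Lib.MP_af2b3e_co.LE

variable {V : Type} [DecidableEq V]

/-- The weight of an edge. -/
noncomputable def wt (μ : ℝ) (A B f : Finset V) : ℝ :=
  if Disjoint f B then (1 + μ) ^ (f ∩ A).card else 0

/-- The weight of a point. -/
noncomputable def dg (H : Finset (Finset V)) (μ : ℝ) (A B : Finset V) (x : V) : ℝ :=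
  ∑ f ∈ H, if x ∈ f then wt μ A B f else 0

variable {H : Finset (Finset V)} {μ : ℝ} {A B f : Finset V} {w x y : V}

theorem wt_nonneg (hμ : 0 ≤ μ) : 0 ≤ wt μ A B f := by
  unfold wt
  split_ifs
  · positivity
  · exact le_rfl

theorem wt_in (hA : w ∉ A) (hf : w ∈ f) : wt μ (insert w A) B f = (1 + μ) * wt μ A B f := by
  unfold wt
  split_ifs
  · rw [inter_insert_of_mem hf, card_insert_of_notMem fun h => hA (mem_inter.1 h).2, pow_succ']
  · rw [mul_zero]

theorem wt_out (hf : w ∉ f) : wt μ (insert w A) B f = wt μ A B f := by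
  rw [wt, wt, inter_insert_of_notMem hf]

theorem wt_kill : wt μ A (insert y B) f = if y ∈ f then 0 else wt μ A B f := by
  unfold wt
  by_cases h : y ∈ f <;> simp [h]

theorem dg_nonneg (hμ : 0 ≤ μ) : 0 ≤ dg H μ A B x :=
  sum_nonneg fun _ _ => by
    split_ifs
    · exact wt_nonneg hμ
    · exact le_rfl

theorem dg_kill (hμ : 0 ≤ μ) : dg H μ A (insert y B) x ≤ dg H μ A B x :=
  sum_le_sum fun f _ => by
    rw [wt_kill]
    split_ifs
    · exact wt_nonneg hμ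
    · exact le_rfl
    · exact le_rfl

theorem dg_far (h : ¬ S H x w) : dg H μ (insert w A) B x = dg H μ A B x :=
  sum_congr rfl fun f hf => by
    split_ifs with hx
    · exact wt_out fun hw => h (Or.inr ⟨f, hf, hx, hw⟩)
    · rfl

theorem dg_zero (h : ¬ ∃ f ∈ H, x ∈ f) : dg H μ A B x = 0 :=
  sum_eq_zero fun f hf => if_neg fun hx => h ⟨f, hf, hx⟩

theorem pot_move {θ a : ℝ} {ω : Finset V → ℝ} (hμ : 0 ≤ μ) (hA : w ∉ A)
    (h : ∀ f ∈ H, w ∈ f → θ * ω f ≤ a) :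
    θ * ∑ f ∈ H, ω f * wt μ (insert w A) B f ≤
      θ * ∑ f ∈ H, ω f * wt μ A B f + μ * (a * dg H μ A B w) := by
  rw [dg, mul_sum, mul_sum, mul_sum, mul_sum, ← sum_add_distrib]
  refine sum_le_sum fun f hf => ?_
  split_ifs with hw
  · rw [wt_in hA hw]
    have h1 := mul_le_mul_of_nonneg_left (mul_le_mul_of_nonneg_right (h f hf hw)
      (wt_nonneg (A := A) (B := B) (f := f) hμ)) hμ
    linarith [h1, show θ * (ω f * ((1 + μ) * wt μ A B f)) =
      θ * (ω f * wt μ A B f) + μ * (θ * ω f * wt μ A B f) by ring]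
  · rw [wt_out hw]
    simp

theorem pot_kill {a : ℝ} {ω : Finset V → ℝ} (hμ : 0 ≤ μ) (h : ∀ f ∈ H, y ∈ f → a ≤ ω f) :
    ∑ f ∈ H, ω f * wt μ A (insert y B) f + a * dg H μ A B y ≤ ∑ f ∈ H, ω f * wt μ A B f := by
  rw [dg, mul_sum, ← sum_add_distrib]
  refine sum_le_sum fun f hf => ?_
  rw [wt_kill]
  split_ifs with hy
  · rw [mul_zero, zero_add]
    exact mul_le_mul_of_nonneg_right (h f hf hy) (wt_nonneg hμ)
  · simp

/-- The reply: the heaviest free point within distance `k` of the move. -/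
theorem exists_reply [Fintype V] (hμ : 0 ≤ μ) (k : ℕ) (w : V) (h : A ∪ B ≠ univ) :
    ∃ (y : V) (κ : ℝ), y ∉ A ∧ y ∉ B ∧ 0 ≤ κ ∧
      (∀ x, x ∉ A → x ∉ B → R H k w x → dg H μ A B x ≤ κ) ∧
      (κ = 0 ∨ (R H k w y ∧ κ = dg H μ A B y)) := by
  classical
  by_cases hU : (univ.filter fun x => x ∉ A ∧ x ∉ B ∧ R H k w x).Nonempty
  · obtain ⟨y, hy, hm⟩ := exists_max_image _ (dg H μ A B) hU
    obtain ⟨h1, h2, h3⟩ := (mem_filter.1 hy).2
    exact ⟨y, _, h1, h2, dg_nonneg hμ,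
      fun x a b c => hm x (mem_filter.2 ⟨mem_univ _, a, b, c⟩), Or.inr ⟨h3, rfl⟩⟩
  · obtain ⟨y, hy⟩ : ∃ y, y ∉ A ∪ B := by
      by_contra hc
      exact h (eq_univ_of_forall fun y => not_not.1 fun hy => hc ⟨y, hy⟩)
    rw [mem_union, not_or] at hy
    exact ⟨y, 0, hy.1, hy.2, le_rfl,
      fun x a b c => absurd ⟨x, mem_filter.2 ⟨mem_univ _, a, b, c⟩⟩ hU, Or.inl rfl⟩

theorem core [Fintype V] (H : Finset (Finset V)) (n ρ : ℕ) (hn : 1 ≤ n)
    (hH : ∀ e ∈ H, e.card = n) {Ω : Type} [Fintype Ω] [Nonempty Ω] (cl : Ω → V → V)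
    (hcl : ∀ o x, R H ρ x (cl o x)) (θ μ p E : ℝ) (h0 : 0 < θ) (hμ : 0 ≤ μ)
    (h1 : θ ≤ 1) (hμp : μ ≤ p * θ ^ (4 * ρ + 1))
    (hp : ∀ x, (∃ f ∈ H, x ∈ f) →
      p * Fintype.card Ω ≤ ∑ o, ind (∀ y, S H x y → cl o y = cl o x))
    (φ : V → V → ℝ) (ω : V → Finset V → ℝ) (hφ0 : ∀ c x, 0 ≤ φ c x) (hφ1 : ∀ c, φ c c = 1)
    (hφ : ∀ c k x y, R H k x y → θ ^ k * φ c x ≤ φ c y)
    (hω1 : ∀ c, ∀ f ∈ H, ∀ x ∈ f, φ c x ≤ ω c f) (hω2 : ∀ c, ∀ f ∈ H, ∀ x ∈ f, θ * ω c f ≤ φ c x)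
    (hE : ∀ c, (∃ f ∈ H, c ∈ f) → ∑ f ∈ H, ω c f ≤ E) (hw : 2 * E < (1 + μ) ^ n) :
    ∃ W : Set (Finset V × Finset V), ((∅ : Finset V), (∅ : Finset V)) ∈ W ∧
      ∀ M B : Finset V, (M, B) ∈ W → ∀ x : V, x ∉ M → x ∉ B →
        (∀ e ∈ H, ¬ e ⊆ insert x M) ∧
        (insert x M ∪ B = Finset.univ ∨
          ∃ y : V, y ∉ insert x M ∧ y ∉ B ∧ (insert x M, insert y B) ∈ W) := by
  have hne : ∀ f ∈ H, ∃ x, x ∈ f := fun f hf => card_pos.1 (by rw [hH f hf]; exact hn)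
  have hN : (0 : ℝ) < Fintype.card Ω := by exact_mod_cast Fintype.card_pos
  have hω0 : ∀ c, ∀ f ∈ H, 0 ≤ ω c f := fun c f hf => by
    obtain ⟨x, hx⟩ := hne f hf
    exact (hφ0 c x).trans (hω1 c f hf x hx)
  refine ⟨{q | Disjoint q.1 q.2 ∧ ∃ κ : Ω → V → ℝ, (∀ o c, 0 ≤ κ o c) ∧
    (∀ o x, x ∉ q.1 → x ∉ q.2 → (∀ y, S H x y → cl o y = cl o x) →
      dg H μ q.1 q.2 x ≤ κ o (cl o x)) ∧
    ∀ c₀, (∃ f ∈ H, c₀ ∈ f) → Fintype.card Ω * ∑ f ∈ H, ω c₀ f * wt μ q.1 q.2 f +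
      θ ^ (3 * ρ) * ∑ o, ∑ c, φ c₀ c * κ o c ≤ Fintype.card Ω * (2 * E)}, ?_, ?_⟩
  · choose rep hrep using fun f : H => hne f f.2
    have hw1 : ∀ f : Finset V, wt μ ∅ ∅ f = 1 := fun f => by simp [wt]
    refine ⟨disjoint_empty_left _, fun o c => ∑ f : H, if cl o (rep f) = c then 1 else 0,
      fun o c => sum_nonneg fun f _ => by split_ifs <;> norm_num, fun o x _ _ hx => ?_,
      fun c₀ hc => ?_⟩
    · show dg H μ ∅ ∅ x ≤ _
      rw [dg, ← sum_coe_sort H]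
      refine sum_le_sum fun f _ => ?_
      by_cases h : x ∈ (f : Finset V)
      · rw [if_pos h, if_pos (hx _ (Or.inr ⟨f, f.2, h, hrep f⟩)), hw1]
      · rw [if_neg h]
        split_ifs <;> norm_num
    · have e1 : ∀ o, θ ^ (3 * ρ) * ∑ c, φ c₀ c * ∑ f : H, (if cl o (rep f) = c then (1 : ℝ) else 0)
          ≤ E := fun o => by
        simp only [mul_sum]
        rw [sum_comm]
        refine le_trans ?_ (hE c₀ hc)
        rw [← sum_coe_sort H]
        refine sum_le_sum fun f _ => ?_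
        have e2 : ∑ c, θ ^ (3 * ρ) * (φ c₀ c * if cl o (rep f) = c then (1 : ℝ) else 0) =
            θ ^ (3 * ρ) * φ c₀ (cl o (rep f)) := by simp
        rw [e2]
        exact (hφ c₀ _ _ _ ((hcl o (rep f)).symm.mono (by omega))).trans
          (hω1 c₀ f f.2 _ (hrep f))
      have e3 : θ ^ (3 * ρ) * ∑ o, ∑ c, φ c₀ c *
          ∑ f : H, (if cl o (rep f) = c then (1 : ℝ) else 0) ≤ Fintype.card Ω * E := by
        rw [mul_sum]
        refine (sum_le_sum fun o _ => e1 o).trans (le_of_eq ?_)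
        rw [sum_const, card_univ, nsmul_eq_mul]
      have e4 := mul_le_mul_of_nonneg_left (hE c₀ hc) hN.le
      show Fintype.card Ω * ∑ f ∈ H, ω c₀ f * wt μ ∅ ∅ f + _ ≤ _
      simp only [hw1, mul_one]
      linarith
  · rintro A B ⟨hd, κ, hκ0, hκ1, hκ2⟩ w hA hB
    dsimp only at hd hκ1 hκ2
    have hd' : Disjoint (insert w A) B := disjoint_insert_left.2 ⟨hB, hd⟩
    have key : ∀ c₀, (∃ f ∈ H, c₀ ∈ f) →
        Fintype.card Ω * ∑ f ∈ H, ω c₀ f * wt μ (insert w A) B f +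
          θ ^ (3 * ρ) * ∑ o, ∑ c ∈ univ.erase (cl o w), φ c₀ c * κ o c ≤
          Fintype.card Ω * (2 * E) := fun c₀ hc => by
      have a1 := pot_move (B := B) hμ hA fun f hf h => hω2 c₀ f hf w h
      have g0 : 0 ≤ φ c₀ w * dg H μ A B w := mul_nonneg (hφ0 _ _) (dg_nonneg hμ)
      have a2 : ∑ o, ind (∀ y, S H w y → cl o y = cl o w) * (θ ^ ρ * (φ c₀ w * dg H μ A B w)) ≤
          ∑ o, φ c₀ (cl o w) * κ o (cl o w) := sum_le_sum fun o _ => by
        by_cases h : ∀ y, S H w y → cl o y = cl o w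
        · rw [ind_pos h, one_mul, ← mul_assoc]
          exact mul_le_mul (hφ c₀ _ _ _ (hcl o w)) (hκ1 o w hA hB h) (dg_nonneg hμ) (hφ0 _ _)
        · rw [ind_neg h, zero_mul]
          exact mul_nonneg (hφ0 _ _) (hκ0 _ _)
      have a3 : p * Fintype.card Ω * (θ ^ ρ * (φ c₀ w * dg H μ A B w)) ≤
          ∑ o, φ c₀ (cl o w) * κ o (cl o w) := by
        refine le_trans ?_ a2
        rw [← sum_mul]
        by_cases h : ∃ f ∈ H, w ∈ f
        · exact mul_le_mul_of_nonneg_right (hp w h) (by positivity)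
        · simp [dg_zero h]
      have a4 : ∑ o, ∑ c, φ c₀ c * κ o c = ∑ o, φ c₀ (cl o w) * κ o (cl o w) +
          ∑ o, ∑ c ∈ univ.erase (cl o w), φ c₀ c * κ o c := by
        rw [← sum_add_distrib]
        exact sum_congr rfl fun o _ =>
          (add_sum_erase univ (fun c => φ c₀ c * κ o c) (mem_univ _)).symm
      have a5 := hκ2 c₀ hc
      rw [a4] at a5
      refine le_of_mul_le_mul_left ?_ h0
      have b1 := mul_le_mul_of_nonneg_left a1 hN.le
      have b2 := mul_le_mul_of_nonneg_left a5 h0.le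
      have b3 := mul_le_mul_of_nonneg_left a3 (mul_pos h0 (pow_pos h0 (3 * ρ))).le
      have b4 := mul_le_mul_of_nonneg_left (mul_le_mul_of_nonneg_right hμp g0) hN.le
      have b5 : θ * θ ^ (3 * ρ) * (p * Fintype.card Ω * (θ ^ ρ * (φ c₀ w * dg H μ A B w))) =
          Fintype.card Ω * (p * θ ^ (4 * ρ + 1) * (φ c₀ w * dg H μ A B w)) := by ring
      nlinarith
    refine ⟨fun e he hs => ?_, ?_⟩
    · obtain ⟨c₀, hc⟩ := hne e he
      have a1 := key c₀ ⟨e, he, hc⟩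
      have a2 : 0 ≤ θ ^ (3 * ρ) * ∑ o, ∑ c ∈ univ.erase (cl o w), φ c₀ c * κ o c :=
        mul_nonneg (by positivity) (sum_nonneg fun o _ => sum_nonneg fun c _ =>
          mul_nonneg (hφ0 _ _) (hκ0 _ _))
      have a3 : ω c₀ e * wt μ (insert w A) B e ≤ ∑ f ∈ H, ω c₀ f * wt μ (insert w A) B f :=
        single_le_sum (f := fun f => ω c₀ f * wt μ (insert w A) B f)
          (fun f hf => mul_nonneg (hω0 c₀ f hf) (wt_nonneg hμ)) he
      rw [wt, if_pos (hd'.mono_left hs), inter_eq_left.2 hs, hH e he] at a3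
      have a4 : 1 * (1 + μ) ^ n ≤ ω c₀ e * (1 + μ) ^ n :=
        mul_le_mul_of_nonneg_right (hφ1 c₀ ▸ hω1 c₀ e he c₀ hc) (by positivity)
      have a5 := le_of_mul_le_mul_left ((le_add_of_nonneg_right a2).trans a1) hN
      linarith
    · refine or_iff_not_imp_left.2 fun hf => ?_
      obtain ⟨y, k, hy1, hy2, hk0, hk1, hk2⟩ := exists_reply (H := H) hμ (ρ + ρ) w hf
      refine ⟨y, hy1, hy2, disjoint_insert_right.2 ⟨hy1, hd'⟩,
        fun o c => if c = cl o w then k else κ o c, fun o c => ?_, fun o x hx1 hx2 hx => ?_,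
        fun c₀ hc => ?_⟩
      · dsimp only
        split_ifs
        · exact hk0
        · exact hκ0 o c
      · have hxB : x ∉ B := fun h => hx2 (mem_insert_of_mem h)
        refine (dg_kill hμ).trans ?_
        dsimp only
        split_ifs with h
        · exact hk1 x hx1 hxB ((hcl o w).add (h ▸ (hcl o x).symm))
        · rw [dg_far fun hs => h (hx w hs).symm]
          exact hκ1 o x (fun h => hx1 (mem_insert_of_mem h)) hxB hx
      · have a1 := key c₀ hc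
        have a2 := pot_kill (A := insert w A) (B := B) hμ fun f hf h => hω1 c₀ f hf y h
        have a3 : ∀ o, θ ^ (3 * ρ) * (φ c₀ (cl o w) * k) ≤ φ c₀ y * dg H μ (insert w A) B y :=
          fun o => by
            rcases hk2 with rfl | ⟨h, rfl⟩
            · rw [mul_zero, mul_zero]
              exact mul_nonneg (hφ0 _ _) (dg_nonneg hμ)
            · rw [← mul_assoc]
              exact mul_le_mul_of_nonneg_right
                (hφ c₀ _ _ _ (((hcl o w).symm.add h).mono (by omega))) hk0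
        have a4 : ∑ o, ∑ c, φ c₀ c * (if c = cl o w then k else κ o c) =
            ∑ o, φ c₀ (cl o w) * k + ∑ o, ∑ c ∈ univ.erase (cl o w), φ c₀ c * κ o c := by
          rw [← sum_add_distrib]
          refine sum_congr rfl fun o _ => ?_
          rw [← add_sum_erase univ _ (mem_univ (cl o w)), if_pos rfl]
          exact congrArg _ (sum_congr rfl fun c hc => by rw [if_neg (ne_of_mem_erase hc)])
        have a5 : θ ^ (3 * ρ) * ∑ o, φ c₀ (cl o w) * k ≤
            Fintype.card Ω * (φ c₀ y * dg H μ (insert w A) B y) := by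
          rw [mul_sum]
          refine (sum_le_sum fun o _ => a3 o).trans (le_of_eq ?_)
          rw [sum_const, card_univ, nsmul_eq_mul]
        have a6 := mul_le_mul_of_nonneg_left a2 hN.le
        show Fintype.card Ω * ∑ f ∈ H, ω c₀ f * wt μ (insert w A) (insert y B) f +
          θ ^ (3 * ρ) * ∑ o, ∑ c, φ c₀ c * (if c = cl o w then k else κ o c) ≤ _
        rw [a4]
        linarith [mul_add (θ ^ (3 * ρ)) (∑ o, φ c₀ (cl o w) * k)
          (∑ o, ∑ c ∈ univ.erase (cl o w), φ c₀ c * κ o c), mul_add (Fintype.card Ω : ℝ)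
          (∑ f ∈ H, ω c₀ f * wt μ (insert w A) (insert y B) f)
          (φ c₀ y * dg H μ (insert w A) B y)]

end Pool.Agent.Lib.MP_af2b3e_co.LE
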