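import Pool.Agent.Lib.MP_af2b3e_co.LE.Rel

/-! Padded partitions from a random order of the points and a random radius. -/

set_option autoImplicit false
open Finset

namespace Pool.Agent.Lib.MP_af2b3e_co.LE

variable {V : Type} [Fintype V] [DecidableEq V]

/-- `a` is the first point of `A` in the order given by `π`. -/
def First (π : Equiv.Perm V) (A : Finset V) (a : V) : Prop :=
  a ∈ A ∧ ∀ b ∈ A, Fintype.equivFin V (π a) ≤ Fintype.equivFin V (π b)

omit [DecidableEq V] in
theorem exists_first (π : Equiv.Perm V) {A : Finset V} (h : A.Nonempty) : ∃ a, First π A a :=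
  exists_min_image A _ h

omit [DecidableEq V] in
theorem first_eq {π : Equiv.Perm V} {A A' : Finset V} {a a' : V} (h : First π A a)
    (h' : First π A' a') (h1 : a' ∈ A) (h2 : a ∈ A') : a = a' :=
  π.injective ((Fintype.equivFin V).injective (le_antisymm (h.2 _ h1) (h'.2 _ h2)))

theorem cnt_eq {A : Finset V} {a a' : V} (ha : a ∈ A) (ha' : a' ∈ A) :
    ∑ π : Equiv.Perm V, ind (First π A a) = ∑ π : Equiv.Perm V, ind (First π A a') := by
  rw [← Equiv.sum_comp (Equiv.mulRight (Equiv.swap a a')) fun π => ind (First π A a')]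
  refine sum_congr rfl fun π _ => congrArg ind (propext ?_)
  have hs : ∀ b ∈ A, Equiv.swap a a' b ∈ A := fun b hb => by
    rw [Equiv.swap_apply_def]
    split_ifs <;> assumption
  simp only [First, Equiv.coe_mulRight, Equiv.Perm.mul_apply, Equiv.swap_apply_right]
  refine ⟨fun h => ⟨ha', fun b hb => h.2 _ (hs b hb)⟩, fun h => ⟨ha, fun b hb => ?_⟩⟩
  have := h.2 _ (hs b hb)
  rwa [Equiv.swap_apply_self] at this

theorem cnt_ge {A A' : Finset V} (h : A' ⊆ A) (hA : A'.Nonempty) :
    (A'.card : ℝ) / A.card * Fintype.card (Equiv.Perm V) ≤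
      ∑ π : Equiv.Perm V, ind (∃ a ∈ A', First π A a) := by
  obtain ⟨a₀, h₀⟩ := hA
  have hA : A.Nonempty := ⟨a₀, h h₀⟩
  have hc : (0 : ℝ) < A.card := by exact_mod_cast card_pos.2 hA
  have e1 : ∀ D ⊆ A, ∑ π : Equiv.Perm V, ∑ a ∈ D, ind (First π A a) =
      D.card * ∑ π : Equiv.Perm V, ind (First π A a₀) := fun D hD => by
    rw [sum_comm, sum_congr rfl fun a ha => cnt_eq (hD ha) (h h₀), sum_const, nsmul_eq_mul]
  have e2 : (Fintype.card (Equiv.Perm V) : ℝ) ≤
      ∑ π : Equiv.Perm V, ∑ a ∈ A, ind (First π A a) := by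
    rw [← card_univ, card_eq_sum_ones, Nat.cast_sum]
    refine sum_le_sum fun π _ => ?_
    obtain ⟨a, ha⟩ := exists_first π hA
    rw [Nat.cast_one, ← ind_pos ha]
    exact single_le_sum (f := fun a => ind (First π A a)) (fun _ _ => ind_nonneg _) ha.1
  have e3 : ∑ π : Equiv.Perm V, ∑ a ∈ A', ind (First π A a) ≤
      ∑ π : Equiv.Perm V, ind (∃ a ∈ A', First π A a) := sum_le_sum fun π _ => by
    by_cases hx : ∃ a ∈ A', First π A a
    · rw [ind_pos hx]
      obtain ⟨a, ha, hf⟩ := hx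
      rw [sum_eq_single_of_mem a ha fun b _ hb =>
        ind_neg fun hb' => hb (first_eq hb' hf hf.1 hb'.1), ind_pos hf]
    · rw [ind_neg hx]
      exact le_of_eq (sum_eq_zero fun a ha => ind_neg fun hf => hx ⟨a, ha, hf⟩)
  rw [e1 A subset_rfl] at e2
  rw [e1 A' h] at e3
  refine le_trans ?_ e3
  rw [div_mul_eq_mul_div, div_le_iff₀ hc, mul_assoc, mul_comm _ (A.card : ℝ)]
  exact mul_le_mul_of_nonneg_left e2 (Nat.cast_nonneg _)

open Classical in
/-- The ball of radius `k` about a point. -/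
noncomputable def ball (H : Finset (Finset V)) (k : ℕ) (x : V) : Finset V :=
  univ.filter (R H k x)

omit [DecidableEq V] in
theorem mem_ball {H : Finset (Finset V)} {k : ℕ} {x y : V} : y ∈ ball H k x ↔ R H k x y := by
  simp [ball]

theorem pad (H : Finset (Finset V)) (m : ℕ) (hm : 0 < m) (L : ℝ)
    (hL : ∀ x, (∃ f ∈ H, x ∈ f) → Real.log (ball H (2 * m) x).card ≤ L) :
    ∃ cl : Fin m × Equiv.Perm V → V → V, (∀ o x, R H (2 * m) x (cl o x)) ∧
      ∀ x, (∃ f ∈ H, x ∈ f) → (1 - L / m) * Fintype.card (Fin m × Equiv.Perm V) ≤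
        ∑ o, ind (∀ y, S H x y → cl o y = cl o x) := by
  have hb : ∀ k x, (ball H k x).Nonempty := fun k x => ⟨x, mem_ball.2 (R.refl k x)⟩
  choose cl hcl using fun (o : Fin m × Equiv.Perm V) (x : V) =>
    exists_first o.2 (hb (2 * o.1 + 1) x)
  refine ⟨cl, fun o x => (mem_ball.1 (hcl o x).1).mono (by omega), fun x hx => ?_⟩
  have hP : (0 : ℝ) ≤ Fintype.card (Equiv.Perm V) := Nat.cast_nonneg _
  have hb' : ∀ k, (0 : ℝ) < (ball H k x).card := fun k => by exact_mod_cast card_pos.2 (hb k x)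
  have e1 : ∀ j : Fin m, (1 - (Real.log (ball H (2 * (j + 1)) x).card -
      Real.log (ball H (2 * j) x).card)) * Fintype.card (Equiv.Perm V) ≤
      ∑ π : Equiv.Perm V, ind (∀ y, S H x y → cl (j, π) y = cl (j, π) x) := fun j => by
    have a1 := cnt_ge (A := ball H (2 * (j + 1)) x) (A' := ball H (2 * j) x)
      (fun y hy => mem_ball.2 ((mem_ball.1 hy).mono (by omega))) (hb _ _)
    have a2 := Real.log_le_sub_one_of_pos (div_pos (hb' (2 * j)) (hb' (2 * (j + 1))))
    rw [Real.log_div (hb' _).ne' (hb' _).ne'] at a2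
    refine (mul_le_mul_of_nonneg_right (by linarith) hP).trans
      (a1.trans (sum_le_sum fun π _ => ?_))
    by_cases h : ∃ a ∈ ball H (2 * j) x, First π (ball H (2 * (j + 1)) x) a
    · rw [ind_pos h]
      obtain ⟨a, ha, hf⟩ := h
      have a3 : ∀ y, S H x y → a = cl (j, π) y := fun y hy =>
        first_eq hf (hcl (j, π) y)
          (mem_ball.2 (((R.one hy).add (mem_ball.1 (hcl (j, π) y).1)).mono (by dsimp only; omega)))
          (mem_ball.2 (((R.one hy.symm).add (mem_ball.1 ha)).mono (by dsimp only; omega)))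
      rw [ind_pos fun y hy => (a3 y hy).symm.trans (a3 x (Or.inl rfl))]
    · rw [ind_neg h]
      exact ind_nonneg _
  have e2 : ∑ j : Fin m, (1 - (Real.log (ball H (2 * (j + 1)) x).card -
      Real.log (ball H (2 * j) x).card)) =
      m - (Real.log (ball H (2 * m) x).card - Real.log (ball H (2 * 0) x).card) := by
    rw [sum_sub_distrib, Fin.sum_univ_eq_sum_range (fun j => Real.log (ball H (2 * (j + 1)) x).card -
      Real.log (ball H (2 * j) x).card) m,
      sum_range_sub fun j => Real.log (ball H (2 * j) x).card]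
    simp
  have e3 : 0 ≤ Real.log (ball H (2 * 0) x).card :=
    Real.log_nonneg (by exact_mod_cast card_pos.2 (hb _ x))
  rw [Fintype.sum_prod_type]
  refine le_trans ?_ (sum_le_sum fun j _ => e1 j)
  have hm' : (0 : ℝ) < m := by exact_mod_cast hm
  rw [← sum_mul, e2, Fintype.card_prod, Fintype.card_fin, Nat.cast_mul, ← mul_assoc, sub_mul,
    div_mul_cancel₀ _ hm'.ne', one_mul]
  exact mul_le_mul_of_nonneg_right (by linarith [hL x hx]) hP

end Pool.Agent.Lib.MP_af2b3e_co.LE
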