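import Pool.Agent.Lib.MP_af2b3e_co.LE.Core
import Pool.Agent.Lib.MP_af2b3e_co.LE.Pad

/-! Counting edges in balls, the choice of the parameters, and the theorem. -/

set_option autoImplicit false
open Finset

namespace Pool.Agent.Lib.MP_af2b3e_co.LE

variable {V : Type} [DecidableEq V] {H : Finset (Finset V)} {r : ℕ} {M θ : ℝ}

open Classical in
/-- The edges joined to `e` by a chain of `k` steps. -/
noncomputable def nb (H : Finset (Finset V)) (k : ℕ) (e : Finset V) : Finset (Finset V) :=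
  H.filter (Near H k e)

omit [DecidableEq V] in
theorem mem_nb {k : ℕ} {e f : Finset V} : f ∈ nb H k e ↔ f ∈ H ∧ Near H k e f := by
  simp [nb]

theorem nb_pow (hM0 : 0 ≤ M) (hM : ∀ e ∈ H, ((nb H r e).card : ℝ) ≤ M) {e : Finset V} (he : e ∈ H)
    (j : ℕ) : ((nb H (j * r) e).card : ℝ) ≤ M ^ j := by
  induction j with
  | zero =>
    have : (nb H (0 * r) e).card ≤ 1 := card_le_one.2 fun a ha b hb => by
      rw [zero_mul] at ha hb
      exact (Eq.symm (mem_nb.1 ha).2).trans (mem_nb.1 hb).2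
    rw [pow_zero]
    exact_mod_cast this
  | succ j ih =>
    have a1 : nb H ((j + 1) * r) e ⊆ (nb H (j * r) e).biUnion (nb H r) := fun g hg => by
      obtain ⟨h1, h2⟩ := mem_nb.1 hg
      rw [add_one_mul] at h2
      obtain ⟨f, h3, h4⟩ := h2.split
      exact mem_biUnion.2 ⟨f, mem_nb.2 ⟨h3.mem he, h3⟩, mem_nb.2 ⟨h1, h4⟩⟩
    have a2 : ((nb H ((j + 1) * r) e).card : ℝ) ≤
        ∑ f ∈ nb H (j * r) e, ((nb H r f).card : ℝ) := by
      exact_mod_cast (card_le_card a1).trans card_biUnion_le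
    refine a2.trans ((sum_le_sum fun f hf => hM f (mem_nb.1 hf).1).trans ?_)
    rw [sum_const, nsmul_eq_mul, pow_succ]
    exact mul_le_mul_of_nonneg_right ih hM0

omit [DecidableEq V] in
theorem dec_split (hne : ∀ f ∈ H, f.Nonempty) (h0 : 0 ≤ θ) (h1 : θ ≤ 1) {e f : Finset V} {c : V}
    (he : e ∈ H) (hc : c ∈ e) (hf : f ∈ H) (J : ℕ) :
    dec θ (fun k => ∃ x ∈ f, R H k c x) ≤ (θ ^ r) ^ J ∨ dec θ (fun k => ∃ x ∈ f, R H k c x) ≤
      ∑ j ∈ range J, (θ ^ r) ^ j * ind (Near H ((j + 1) * r) e f) := by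
  induction J with
  | zero =>
    left
    rw [pow_zero, ← pow_zero θ]
    exact dec_le_pow h0 h1 0 fun k hk => absurd hk (Nat.not_lt_zero k)
  | succ J ih =>
    have a1 : ∀ j, 0 ≤ (θ ^ r) ^ j * ind (Near H ((j + 1) * r) e f) := fun j =>
      mul_nonneg (by positivity) (ind_nonneg _)
    rw [sum_range_succ]
    rcases ih with ih | ih
    · by_cases h : Near H ((J + 1) * r) e f
      · right
        rw [ind_pos h, mul_one]
        exact ih.trans (le_add_of_nonneg_left (sum_nonneg fun j _ => a1 j))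
      · left
        rw [← pow_mul, mul_comm]
        refine dec_le_pow h0 h1 _ fun k hk ⟨x, hx, hR⟩ => h ?_
        obtain ⟨g, hg, hxg⟩ := near_of_R he hc hR
        exact Near.mono hne he (j := k + 1) ⟨hf, g, hg, x, hxg, hx⟩ hk
    · exact Or.inr (ih.trans (le_add_of_nonneg_right (a1 J)))

theorem geo {q : ℝ} (hq : 0 ≤ q) (hM : 1 ≤ M) (h : M ^ 2 * q ≤ 1 / 8) (J : ℕ) :
    ∑ j ∈ range (J + 1), q ^ j * M ^ (j + 1) ≤ M + 1 / 4 - (1 / 8) ^ J / 4 := by
  induction J with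
  | zero => simp
  | succ J ih =>
    have a1 : q ^ (J + 1) * M ^ (J + 1 + 1) ≤ (1 / 8) ^ (J + 1) := by
      refine le_trans ?_ (pow_le_pow_left₀ (by positivity) h _)
      rw [mul_pow, mul_comm, ← pow_mul]
      exact mul_le_mul_of_nonneg_right (pow_le_pow_right₀ hM (by omega)) (by positivity)
    have a2 : (0 : ℝ) ≤ (1 / 8) ^ J := by positivity
    rw [pow_succ (1 / 8 : ℝ)] at a1
    rw [sum_range_succ, pow_succ (1 / 8 : ℝ)]
    linarith

theorem sum_dec (hne : ∀ f ∈ H, f.Nonempty) (h0 : 0 ≤ θ) (h1 : θ ≤ 1)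
    (hM : ∀ e ∈ H, ((nb H r e).card : ℝ) ≤ M) (h : M ^ 2 * θ ^ r ≤ 1 / 8) {e : Finset V} {c : V}
    (he : e ∈ H) (hc : c ∈ e) :
    ∑ f ∈ H, dec θ (fun k => ∃ x ∈ f, R H k c x) ≤ M + 3 / 8 := by
  classical
  have hM1 : 1 ≤ M := le_trans (by
    exact_mod_cast card_pos.2 ⟨e, mem_nb.2 ⟨he, Near.mono hne he (j := 0) rfl r.zero_le⟩⟩)
    (hM e he)
  have hq : 0 ≤ θ ^ r := by positivity
  have hq1 : θ ^ r < 1 := by nlinarith [mul_nonneg (sub_nonneg.2 (one_le_pow₀ hM1 (n := 2))) hq]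
  have hH : (0 : ℝ) < H.card := by exact_mod_cast card_pos.2 ⟨e, he⟩
  obtain ⟨J, hJ⟩ := exists_pow_lt_of_lt_one (show (0 : ℝ) < 1 / 8 / H.card by positivity) hq1
  have a1 : H.card * (θ ^ r) ^ (J + 1) ≤ 1 / 8 := by
    rw [lt_div_iff₀' hH] at hJ
    exact (mul_le_mul_of_nonneg_left (pow_le_pow_of_le_one hq hq1.le J.le_succ) hH.le).trans hJ.le
  have a2 : ∑ f ∈ H, dec θ (fun k => ∃ x ∈ f, R H k c x) ≤ ∑ f ∈ H, ((θ ^ r) ^ (J + 1) +
      ∑ j ∈ range (J + 1), (θ ^ r) ^ j * ind (Near H ((j + 1) * r) e f)) :=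
    sum_le_sum fun f hf => by
      rcases dec_split (r := r) hne h0 h1 he hc hf (J + 1) with h | h
      · exact h.trans (le_add_of_nonneg_right (sum_nonneg fun j _ =>
          mul_nonneg (by positivity) (ind_nonneg _)))
      · exact h.trans (le_add_of_nonneg_left (by positivity))
  have a3 : ∀ j, ∑ f ∈ H, (θ ^ r) ^ j * ind (Near H ((j + 1) * r) e f) ≤
      (θ ^ r) ^ j * M ^ (j + 1) := fun j => by
    rw [← mul_sum]
    refine mul_le_mul_of_nonneg_left (le_trans (le_of_eq ?_)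
      (nb_pow (zero_le_one.trans hM1) hM he (j + 1))) (by positivity)
    rw [nb, card_filter, Nat.cast_sum]
    refine sum_congr rfl fun f _ => ?_
    split_ifs with h
    · rw [ind_pos h, Nat.cast_one]
    · rw [ind_neg h, Nat.cast_zero]
  rw [sum_add_distrib, sum_const, nsmul_eq_mul, sum_comm] at a2
  have a4 := (sum_le_sum fun j _ => a3 j).trans (geo hq hM1 h J)
  have a5 : (0 : ℝ) ≤ (1 / 8) ^ J / 4 := by positivity
  linarith

theorem ball_le [Fintype V] {n k : ℕ} (hH : ∀ e ∈ H, e.card = n)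
    (hM : ∀ e ∈ H, ((nb H r e).card : ℝ) ≤ M) (hk : k ≤ r) {e : Finset V} {x : V} (he : e ∈ H)
    (hx : x ∈ e) : ((ball H k x).card : ℝ) ≤ n * M := by
  have a1 : ball H k x ⊆ (nb H r e).biUnion id := fun y hy => by
    obtain ⟨f, hf, hyf⟩ := near_of_R he hx ((mem_ball.1 hy).mono hk)
    exact mem_biUnion.2 ⟨f, mem_nb.2 ⟨hf.mem he, hf⟩, hyf⟩
  have a2 : (ball H k x).card ≤ n * (nb H r e).card := by
    refine (card_le_card a1).trans (card_biUnion_le.trans (le_of_eq ?_))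
    exact (sum_congr rfl fun f hf => hH f (mem_nb.1 hf).1).trans
      (by rw [sum_const, smul_eq_mul, mul_comm])
  exact le_trans (by exact_mod_cast a2) (mul_le_mul_of_nonneg_left (hM e he) (Nat.cast_nonneg n))

theorem main [Fintype V] (H : Finset (Finset V)) (n r : ℕ) (M η : ℝ) (hn : 1 ≤ n) (hM1 : 1 ≤ M)
    (h0 : 0 < η) (h1 : η ≤ 1) (hMe : 2 * M + 1 ≤ (2 - η) ^ n)
    (hr : 41 * Real.log (8 * n * M ^ 2) ^ 2 ≤ η ^ 2 * r) (hH : ∀ e ∈ H, e.card = n)
    (hM : ∀ e ∈ H, ((nb H r e).card : ℝ) ≤ M) :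
    ∃ W : Set (Finset V × Finset V), ((∅ : Finset V), (∅ : Finset V)) ∈ W ∧
      ∀ M B : Finset V, (M, B) ∈ W → ∀ x : V, x ∉ M → x ∉ B →
        (∀ e ∈ H, ¬ e ⊆ insert x M) ∧
        (insert x M ∪ B = Finset.univ ∨
          ∃ y : V, y ∉ insert x M ∧ y ∉ B ∧ (insert x M, insert y B) ∈ W) := by
  have hne : ∀ f ∈ H, f.Nonempty := fun f hf => card_pos.1 (by rw [hH f hf]; exact hn)
  have hn' : (1 : ℝ) ≤ n := by exact_mod_cast hn
  have hM2 : M ≤ M ^ 2 := by nlinarith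
  have hM3 : M ^ 2 ≤ n * M ^ 2 := by nlinarith
  obtain ⟨l, hl⟩ : ∃ l : ℝ, Real.log (8 * n * M ^ 2) = 2 * l :=
    ⟨Real.log (8 * n * M ^ 2) / 2, by ring⟩
  have hle : Real.exp (2 * l) = 8 * n * M ^ 2 := by
    rw [← hl, Real.exp_log (by positivity)]
  have hl1 : 1 ≤ l := by
    have a1 : Real.exp (1 + 1) ≤ Real.exp (2 * l) := by
      rw [hle, Real.exp_add]
      nlinarith [Real.exp_one_lt_d9, Real.exp_pos 1]
    linarith [Real.exp_le_exp.1 a1]
  rw [hl] at hr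
  obtain ⟨m, hm1, hm2⟩ : ∃ m : ℕ, 4 * l ≤ η * m ∧ η * m ≤ 5 * l := by
    refine ⟨⌈4 * l / η⌉₊, ?_, ?_⟩
    · rw [← div_le_iff₀' h0]
      exact Nat.le_ceil _
    · have := mul_le_mul_of_nonneg_left
        (Nat.ceil_lt_add_one (show 0 ≤ 4 * l / η by positivity)).le h0.le
      rw [mul_add, mul_div_cancel₀ _ h0.ne'] at this
      linarith
  have hm : (0 : ℝ) < m := (mul_pos_iff_of_pos_left h0).1 (by linarith)
  have hr0 : (0 : ℝ) ≤ r := Nat.cast_nonneg r
  have hmr : 2 * m ≤ r := by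
    have a1 : η * (η * r) ≤ 1 * (η * r) := mul_le_mul_of_nonneg_right h1 (by positivity)
    have a2 : η * (2 * m) ≤ η * r := by nlinarith
    exact_mod_cast le_of_mul_le_mul_left a2 h0
  obtain ⟨cl, hcl, hp⟩ := pad H m (by exact_mod_cast hm) (2 * l) fun x ⟨e, he, hx⟩ => by
    rw [Real.log_le_iff_le_exp (by exact_mod_cast card_pos.2 ⟨x, mem_ball.2 (R.refl _ x)⟩), hle]
    refine (ball_le hH hM hmr he hx).trans ?_
    nlinarith [mul_le_mul_of_nonneg_left hM2 (zero_le_one.trans hn')]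
  have : NeZero m := ⟨by exact_mod_cast hm.ne'⟩
  obtain ⟨τ, hτ, hτe⟩ : ∃ τ : ℝ, 0 < τ ∧ (8 * m + 1) * τ = η / 2 :=
    ⟨η / 2 / (8 * m + 1), by positivity, by field_simp⟩
  have t0 : 0 < Real.exp (-τ) := Real.exp_pos _
  have t1 : Real.exp (-τ) ≤ 1 := Real.exp_le_one_iff.2 (by linarith)
  refine core H n (2 * m) hn hH cl hcl (Real.exp (-τ)) (1 - η) (1 - 2 * l / m) (M + 3 / 8) t0
    (by linarith) t1 ?_ hp (fun c x => dec (Real.exp (-τ)) fun k => R H k c x)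
    (fun c f => dec (Real.exp (-τ)) fun k => ∃ x ∈ f, R H k c x) (fun c x => dec_nonneg t0.le)
    (fun c => dec_one rfl) (fun c k x y h => dec_le t0.le t1 k fun j hj => hj.add h)
    (fun c f _ x hx => ?_) (fun c f hf x hx => ?_)
    (fun c ⟨e, he, hc⟩ => sum_dec hne t0.le t1 hM ?_ he hc) ?_
  · have a1 : 1 - η / 2 ≤ Real.exp (-τ) ^ (4 * (2 * m) + 1) := by
      rw [← Real.exp_nat_mul]
      refine le_trans ?_ (Real.add_one_le_exp _)
      push_cast
      linarith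
    have a2 : 1 - η / 2 ≤ 1 - 2 * l / m := by
      rw [sub_le_sub_iff_left, div_le_iff₀ hm]
      linarith
    refine le_trans ?_ (mul_le_mul a2 a1 (by linarith) (by linarith))
    nlinarith
  · have := dec_le (P := fun k => R H k c x) (Q := fun k => ∃ x ∈ f, R H k c x) t0.le t1 0
      fun j hj => ⟨x, hx, hj⟩
    rwa [pow_zero, one_mul] at this
  · have := dec_le (P := fun k => ∃ x ∈ f, R H k c x) (Q := fun k => R H k c x) t0.le t1 1
      fun j ⟨y, hy, hj⟩ => ⟨y, hj, Or.inr ⟨f, hf, hy, hx⟩⟩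
    rwa [pow_one] at this
  · have a1 : 2 * l ≤ r * τ := by
      have b1 : η ^ 2 ≤ 82 * l * τ := by
        have : η * (8 * m + 1) * τ ≤ 41 * l * τ := mul_le_mul_of_nonneg_right (by linarith) hτ.le
        nlinarith
      have b2 := mul_le_mul_of_nonneg_right b1 hr0
      have b3 : l * (82 * (2 * l)) ≤ l * (82 * (r * τ)) := by nlinarith
      linarith [le_of_mul_le_mul_left b3 (by linarith)]
    have a3 := Real.exp_le_exp.2 a1
    rw [← Real.exp_nat_mul, mul_neg, Real.exp_neg, ← div_eq_mul_inv, div_le_iff₀ (Real.exp_pos _)]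
    linarith
  · rw [show 1 + (1 - η) = 2 - η by ring]
    linarith

end Pool.Agent.Lib.MP_af2b3e_co.LE
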