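import Mathlib

/-! Distances between points and between edges of a hypergraph, and discount factors. -/

set_option autoImplicit false
open Finset

namespace Pool.Agent.Lib.MP_af2b3e_co.LE

variable {V : Type}

/-- Equal, or in a common edge. -/
def S (H : Finset (Finset V)) (x y : V) : Prop := x = y ∨ ∃ f ∈ H, x ∈ f ∧ y ∈ f

/-- At distance at most `k`. -/
def R (H : Finset (Finset V)) : ℕ → V → V → Prop
  | 0, x, y => x = y
  | k + 1, x, y => ∃ z, R H k x z ∧ S H z y

/-- Joined by a chain of `k` steps through edges that meet. -/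
def Near (H : Finset (Finset V)) : ℕ → Finset V → Finset V → Prop
  | 0, e, f => e = f
  | k + 1, e, g => g ∈ H ∧ ∃ f, Near H k e f ∧ ∃ x, x ∈ f ∧ x ∈ g

variable {H : Finset (Finset V)}

theorem S.symm {x y : V} (h : S H x y) : S H y x := by
  rcases h with h | ⟨f, hf, h1, h2⟩
  · exact Or.inl h.symm
  · exact Or.inr ⟨f, hf, h2, h1⟩

theorem R.refl (k : ℕ) (x : V) : R H k x x := by
  induction k with
  | zero => rfl
  | succ k ih => exact ⟨x, ih, Or.inl rfl⟩

theorem R.add {j k : ℕ} {x y z : V} (h1 : R H j x y) (h2 : R H k y z) : R H (j + k) x z := by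
  induction k generalizing z with
  | zero =>
    have e : y = z := h2
    exact e ▸ h1
  | succ k ih =>
    obtain ⟨w, hw, hs⟩ := h2
    exact ⟨w, ih hw, hs⟩

theorem R.one {x y : V} (h : S H x y) : R H 1 x y := ⟨x, rfl, h⟩

theorem R.symm {k : ℕ} {x y : V} (h : R H k x y) : R H k y x := by
  induction k generalizing y with
  | zero => exact Eq.symm h
  | succ k ih =>
    obtain ⟨z, hz, hs⟩ := h
    have := (R.one hs.symm).add (ih hz)
    rwa [add_comm] at this

theorem R.mono {j k : ℕ} {x y : V} (h : R H j x y) (hjk : j ≤ k) : R H k x y := by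
  obtain ⟨d, rfl⟩ := Nat.exists_eq_add_of_le hjk
  exact h.add (R.refl d y)

theorem Near.mem {k : ℕ} {e f : Finset V} (he : e ∈ H) (h : Near H k e f) : f ∈ H := by
  cases k with
  | zero =>
    have e1 : e = f := h
    exact e1 ▸ he
  | succ k => exact h.1

theorem Near.mono (hne : ∀ f ∈ H, f.Nonempty) {j k : ℕ} {e f : Finset V} (he : e ∈ H)
    (h : Near H j e f) (hjk : j ≤ k) : Near H k e f := by
  induction k, hjk using Nat.le_induction with
  | base => exact h
  | succ k _ ih =>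
    obtain ⟨x, hx⟩ := hne f (h.mem he)
    exact ⟨h.mem he, f, ih, x, hx, hx⟩

theorem Near.split {j k : ℕ} {e g : Finset V} (h : Near H (j + k) e g) :
    ∃ f, Near H j e f ∧ Near H k f g := by
  induction k generalizing g with
  | zero => exact ⟨g, h, rfl⟩
  | succ k ih =>
    obtain ⟨hg, f', hf', hx⟩ := h
    obtain ⟨f, h1, h2⟩ := ih hf'
    exact ⟨f, h1, hg, f', h2, hx⟩

theorem near_of_R {k : ℕ} {e : Finset V} {c x : V} (he : e ∈ H) (hc : c ∈ e) (h : R H k c x) :
    ∃ f, Near H k e f ∧ x ∈ f := by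
  induction k generalizing x with
  | zero =>
    have e1 : c = x := h
    exact ⟨e, rfl, e1 ▸ hc⟩
  | succ k ih =>
    obtain ⟨z, hz, hs⟩ := h
    obtain ⟨f, hf, hzf⟩ := ih hz
    rcases hs with rfl | ⟨g, hg, h1, h2⟩
    · exact ⟨f, ⟨hf.mem he, f, hf, z, hzf, hzf⟩, hzf⟩
    · exact ⟨g, ⟨hg, f, hf, z, hzf, h1⟩, h2⟩

theorem Near.chain [DecidableEq V] {k : ℕ} {e f : Finset V} (h : Near H k e f) :
    ∃ c : ℕ → Finset V, c 0 = e ∧ c k = f ∧
      ∀ i < k, c (i + 1) ∈ H ∧ (c i ∩ c (i + 1)).Nonempty := by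
  induction k generalizing f with
  | zero => exact ⟨fun _ => e, rfl, h, fun i hi => absurd hi (Nat.not_lt_zero i)⟩
  | succ k ih =>
    obtain ⟨hg, f', hf', x, hx1, hx2⟩ := h
    obtain ⟨c, h0, h1, h2⟩ := ih hf'
    refine ⟨fun i => if i ≤ k then c i else f, by simp [h0], by simp, fun i hi => ?_⟩
    rcases Nat.lt_succ_iff_lt_or_eq.1 hi with hi | rfl
    · simpa [hi.le, Nat.succ_le_of_lt hi] using h2 i hi
    · simp only [le_refl, if_true, Nat.add_one_le_iff, lt_irrefl, if_false, h1]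
      exact ⟨hg, x, mem_inter.2 ⟨hx1, hx2⟩⟩

open Classical in
/-- `θ` to the power of the least `k` with `P k`, and zero if there is none. -/
noncomputable def dec (θ : ℝ) (P : ℕ → Prop) : ℝ := if h : ∃ k, P k then θ ^ Nat.find h else 0

open Classical in
/-- The indicator of a proposition. -/
noncomputable def ind (P : Prop) : ℝ := if P then 1 else 0

theorem ind_pos {P : Prop} (h : P) : ind P = 1 := if_pos h

theorem ind_neg {P : Prop} (h : ¬ P) : ind P = 0 := if_neg h

theorem ind_nonneg (P : Prop) : 0 ≤ ind P := by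
  by_cases h : P
  · rw [ind_pos h]
    exact zero_le_one
  · rw [ind_neg h]

variable {θ : ℝ} {P Q : ℕ → Prop}

theorem dec_nonneg (h0 : 0 ≤ θ) : 0 ≤ dec θ P := by
  unfold dec
  split_ifs
  · positivity
  · exact le_rfl

theorem dec_le (h0 : 0 ≤ θ) (h1 : θ ≤ 1) (j : ℕ) (h : ∀ k, P k → Q (k + j)) :
    θ ^ j * dec θ P ≤ dec θ Q := by
  classical
  by_cases hP : ∃ k, P k
  · have hQ : ∃ k, Q k := ⟨_, h _ (Nat.find_spec hP)⟩
    rw [dec, dec, dif_pos hP, dif_pos hQ, ← pow_add, add_comm]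
    exact pow_le_pow_of_le_one h0 h1 (Nat.find_min' hQ (h _ (Nat.find_spec hP)))
  · rw [dec, dif_neg hP, mul_zero]
    exact dec_nonneg h0

theorem dec_one (h : P 0) : dec θ P = 1 := by
  classical
  have hP : ∃ k, P k := ⟨0, h⟩
  rw [dec, dif_pos hP, (Nat.find_eq_zero hP).2 h, pow_zero]

theorem dec_le_pow (h0 : 0 ≤ θ) (h1 : θ ≤ 1) (j : ℕ) (h : ∀ k < j, ¬ P k) : dec θ P ≤ θ ^ j := by
  classical
  by_cases hP : ∃ k, P k
  · rw [dec, dif_pos hP]
    exact pow_le_pow_of_le_one h0 h1 (not_lt.1 fun hl => h _ hl (Nat.find_spec hP))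
  · rw [dec, dif_neg hP]
    positivity

end Pool.Agent.Lib.MP_af2b3e_co.LE
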